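import Pool.Agent.TH19.Fin19
import Pool.Agent.TH19.NF
import Pool.Agent.TH19.Indep

attribute [local instance] VN831.bcFunctor_additive VN831.viaAdd VN831.viaMod
  Pool.Agent.Helper655.VN.kerM_hop V7N.bcF_additive V7N.rmAdd V7N.rmMod L2B.l2Add L2B.l2Mod
  L2B.instRingN L2B.instAddBC L2B.instModBC L2B.bcF_additive

/-!
# The polytope invariant of groups with a two-dimensional classifying space

Let `Γ` be an `L²`-acyclic group of type F and of cohomological dimension at most two which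
satisfies the Atiyah Conjecture and which is not infinite cyclic.  Then the polytope invariant
`-P(τ)` of `Γ` is represented by an integral polytope.
-/

set_option autoImplicit false
set_option linter.unusedSectionVars false

namespace Pool.Agent.Results.MP_55fbef_al.TwoDimPolytope

open L2B CategoryTheory
open scoped Pointwise

/-! ### The division ring `D(Γ)` -/

/-- The division closure in the ring `U` of the set `{ι (λ_g) | g ∈ S}`: the intersection of all
subrings of `U` which contain this set and which contain the inverse of every element of theirs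
that is invertible in `U`. -/
def divCl {Γ U : Type} [Group Γ] [Ring U] (ι : N Γ →+* U) (S : Set Γ) : Set U :=
  {x | ∀ T : Subring U, (∀ g ∈ S, ι (lam g) ∈ T) →
    (∀ y ∈ T, ∀ z : U, y * z = 1 → z * y = 1 → z ∈ T) → x ∈ T}

/-- The homomorphism `e` identifies the division ring `D` with the division closure `D(Γ)` of `Γ`
in `U`, and `u` is the inclusion of `Γ` in the group of units of `D`. -/
structure IsDG {Γ U D : Type} [Group Γ] [Ring U] [DivisionRing D] (ι : N Γ →+* U) (e : D →+* U)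
    (u : Γ →* Dˣ) : Prop where
  unit : ∀ g, e ((u g : Dˣ) : D) = ι (lam g)
  range : Set.range e = divCl ι Set.univ

/-! ### Polytopes -/

/-- The class of `g` in `H_1(Γ; ℝ) = ℝ ⊗ Γ_ab`. -/
noncomputable def cls {Γ : Type} [Group Γ] (g : Γ) : TN970.H1R Γ :=
  TensorProduct.tmul ℤ (1 : ℝ) (Additive.ofMul (Abelianization.of g))

/-- The convex hull in `H_1(Γ; ℝ)` of the classes of the elements of `s`. -/
noncomputable def poly {Γ : Type} [Group Γ] (s : Finset Γ) : Set (TN970.H1R Γ) :=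
  convexHull ℝ (cls '' (s : Set Γ))

/-- The element `f` of `D` is a nonzero element `∑ a_g g` of the crossed product `D(K) * H`, where
`H` is the first homology modulo torsion and `K` is the kernel of `Γ → H`. The sum runs over the
nonempty finite set `s`, whose elements have different images in `H`, and the coefficients `a_g` are
nonzero elements of `D(K)`. Thus `P(f)` is `poly s`. -/
def HasSupp {Γ U D : Type} [Group Γ] [Ring U] [DivisionRing D] (ι : N Γ →+* U) (e : D →+* U)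
    (u : Γ →* Dˣ) (f : D) (s : Finset Γ) : Prop :=
  s.Nonempty ∧ Set.InjOn cls (s : Set Γ) ∧ ∃ a : Γ → D,
    (∀ g ∈ s, a g ≠ 0 ∧ e (a g) ∈ divCl ι {k | cls k = 0}) ∧
    f = ∑ g ∈ s, a g * ((u g : Dˣ) : D)

/-! ### The torsion -/

/-- `s` is a chain contraction of the complex `D ⊗ C`, whose differentials are the matrices
`(C.d n).map (ev u)` acting on rows from the right. -/
structure IsContraction {Γ D : Type} [Group Γ] [DivisionRing D] (u : Γ →* Dˣ) (C : V7N.FreeRes Γ)
    (s : ∀ n, Matrix (Fin (C.r n)) (Fin (C.r (n + 1))) D) : Prop where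
  zero : s 0 * (C.d 0).map (TN970.ev u) = 1
  succ : ∀ n, (C.d n).map (TN970.ev u) * s n + s (n + 1) * (C.d (n + 1)).map (TN970.ev u) = 1

/-- The basis of the sum of the modules `C_n` for all `n < M` which are congruent to `p` modulo
two. -/
abbrev Basis {Γ : Type} [Group Γ] (C : V7N.FreeRes Γ) (M p : ℕ) : Type :=
  {i : Σ n : Fin M, Fin (C.r n) // (i.1 : ℕ) % 2 = p}

/-- The matrix of `d + s` from the odd part to the even part of `D ⊗ C`. -/
noncomputable def torsionMatrix {Γ D : Type} [Group Γ] [DivisionRing D] (u : Γ →* Dˣ)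
    (C : V7N.FreeRes Γ) (s : ∀ n, Matrix (Fin (C.r n)) (Fin (C.r (n + 1))) D) (M : ℕ) :
    Matrix (Basis C M 1) (Basis C M 0) D := fun i j =>
  (if h : (i.1.1 : ℕ) = j.1.1 + 1 then
    TN970.ev u (C.d j.1.1 (Fin.cast (congrArg C.r h) i.1.2) j.1.2) else 0) +
  (if h : (j.1.1 : ℕ) = i.1.1 + 1 then s i.1.1 i.1.2 (Fin.cast (congrArg C.r h) j.1.2) else 0)

/-- The products of elementary matrices `1 + c E_ij`, `i ≠ j`. -/
def elem (D : Type) [DivisionRing D] (n : ℕ) : Submonoid (Matrix (Fin n) (Fin n) D) :=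
  Submonoid.closure {E | ∃ (i j : Fin n) (c : D), i ≠ j ∧ E = 1 + Matrix.single i j c}

/-- The nonzero element `x` of `D` represents the class in `K_1(D)` of the torsion of `D ⊗ C`: for
some contraction `s`, some `k` and some numberings `e₁` and `e₂` of the bases, the stabilized matrix
`diag (d + s, 1_k)` differs from `diag (x, 1, ..., 1)` by elementary matrices. -/
def IsTorsion {Γ D : Type} [Group Γ] [DivisionRing D] (u : Γ →* Dˣ) (C : V7N.FreeRes Γ) (M : ℕ)
    (x : D) : Prop :=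
  x ≠ 0 ∧ ∃ s, IsContraction u C s ∧ ∃ (k n : ℕ) (e₁ : Basis C M 1 ⊕ Fin k ≃ Fin (n + 1))
    (e₂ : Basis C M 0 ⊕ Fin k ≃ Fin (n + 1)), ∃ P ∈ elem D (n + 1), ∃ Q ∈ elem D (n + 1),
      (Matrix.fromBlocks (torsionMatrix u C s M) 0 0 1).submatrix e₁.symm e₂.symm =
        P * Matrix.diagonal (Function.update (fun _ => (1 : D)) 0 x) * Q

/-- The cohomological dimension of `Γ` is at most two: the trivial `ℤ[Γ]`-module has a projective
resolution which vanishes in all degrees above two. -/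
def CdLeTwo (Γ : Type) [Group Γ] : Prop :=
  ∃ P : ProjectiveResolution (V7N.trivG Γ), ∀ n, 3 ≤ n → Limits.IsZero (P.complex.X n)

/-! ### Comparison with the auxiliary files -/

section compare

open TN970 Pool.Agent.TH19

variable {Γ U D : Type} [Group Γ] [Ring U] [DivisionRing D] {ι : N Γ →+* U} {e : D →+* U}
  {u : Γ →* Dˣ}

theorem mem_divCl [Nontrivial U] (hu : ∀ g, e ((u g : Dˣ) : D) = ι (lam g)) (K : Subgroup Γ) (y : U) :
    y ∈ divCl ι (K : Set Γ) ↔ ∃ d ∈ Dc u K, e d = y := by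
  constructor
  · intro hy
    have h1 := hy ((Dc u K).toSubring.map e) (by
      intro g hg
      exact ⟨((u g : Dˣ) : D), Subfield.subset_closure ⟨g, hg, rfl⟩, hu g⟩) (by
      rintro _ ⟨d, hd, rfl⟩ z hz1 hz2
      have hd0 : d ≠ 0 := by
        rintro rfl
        rw [map_zero, zero_mul] at hz1
        exact zero_ne_one hz1
      refine ⟨d⁻¹, (Dc u K).inv_mem hd, ?_⟩
      have h3 : e d * e d⁻¹ = 1 := by rw [← map_mul, mul_inv_cancel₀ hd0, map_one]
      calc e d⁻¹ = (z * e d) * e d⁻¹ := by rw [hz2, one_mul]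
        _ = z := by rw [mul_assoc, h3, mul_one])
    obtain ⟨d, hd, h⟩ := h1
    exact ⟨d, hd, h⟩
  · rintro ⟨d, hd, rfl⟩ T hT hinv
    let F : Subfield D :=
      { carrier := {d | e d ∈ T}
        mul_mem' := fun {a b} ha hb => by
          show e (a * b) ∈ T
          rw [map_mul]
          exact mul_mem ha hb
        one_mem' := by
          show e 1 ∈ T
          rw [map_one]
          exact one_mem T
        add_mem' := fun {a b} ha hb => by
          show e (a + b) ∈ T
          rw [map_add]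
          exact add_mem ha hb
        zero_mem' := by
          show e 0 ∈ T
          rw [map_zero]
          exact zero_mem T
        neg_mem' := fun {a} ha => by
          show e (-a) ∈ T
          rw [map_neg]
          exact neg_mem ha
        inv_mem' := fun a ha => by
          show e a⁻¹ ∈ T
          by_cases ha0 : a = 0
          · rw [ha0, inv_zero, map_zero]
            exact zero_mem T
          · exact hinv (e a) ha _ (by rw [← map_mul, mul_inv_cancel₀ ha0, map_one])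
              (by rw [← map_mul, inv_mul_cancel₀ ha0, map_one]) }
    have hle : Dc u K ≤ F := by
      unfold Dc
      rw [Subfield.closure_le]
      rintro _ ⟨g, hg, rfl⟩
      show e _ ∈ T
      rw [hu]
      exact hT g hg
    exact hle hd

theorem nontrivial_U (hι : Pool.Agent.RK.Loc ι) : Nontrivial U := by
  have h1 : (1 : Pool.Agent.Helper655.VN.NG Γ) ≠ 0 := by
    intro h1
    have h2 := (Pool.Agent.Helper655.VN.vn_NG (G := Γ)).one
    rw [h1, map_zero] at h2
    exact zero_ne_one h2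
  have h3 := (Fin19.loc_iot hι).inj.ne h1
  rw [map_zero] at h3
  exact ⟨⟨_, _, h3⟩⟩

theorem gen_of [Nontrivial U] (h : IsDG ι e u) (x : D) : x ∈ Dc u ⊤ := by
  have h1 : e x ∈ divCl ι ((⊤ : Subgroup Γ) : Set Γ) := by
    rw [Subgroup.coe_top, ← h.range]
    exact ⟨x, rfl⟩
  obtain ⟨d, hd, he⟩ := (mem_divCl h.unit ⊤ (e x)).1 h1
  rwa [e.injective he] at hd

theorem mem_K [Nontrivial U] (hu : ∀ g, e ((u g : Dˣ) : D) = ι (lam g)) {d : D}
    (h : e d ∈ divCl ι {k : Γ | cls k = 0}) : d ∈ Dc u (NF.Kab Γ) := by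
  have h1 : {k : Γ | cls k = 0} = ((NF.Kab Γ : Subgroup Γ) : Set Γ) := by
    ext k
    exact (NF.mem_Kab (g := k)).symm
  rw [h1] at h
  obtain ⟨d', hd, he⟩ := (mem_divCl hu _ (e d)).1 h
  rwa [e.injective he] at hd

theorem K_mem [Nontrivial U] (hu : ∀ g, e ((u g : Dˣ) : D) = ι (lam g)) {d : D}
    (h : d ∈ Dc u (NF.Kab Γ)) : e d ∈ divCl ι {k : Γ | cls k = 0} := by
  have h1 : {k : Γ | cls k = 0} = ((NF.Kab Γ : Subgroup Γ) : Set Γ) := by
    ext k
    exact (NF.mem_Kab (g := k)).symm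
  rw [h1]
  exact (mem_divCl hu _ (e d)).2 ⟨d, h, rfl⟩

theorem notMem_iff {g h : Γ} : g * h⁻¹ ∈ NF.Kab Γ ↔ cls g = cls h := by
  rw [NF.mem_Kab, Hull.cls_mul]
  have h1 : Hull.cls (h⁻¹ : Γ) = - Hull.cls h := by
    rw [eq_neg_iff_add_eq_zero, ← Hull.cls_mul, inv_mul_cancel, Hull.cls_one]
  rw [h1, ← sub_eq_add_neg, sub_eq_zero]
  exact Iff.rfl

theorem supp_CP [Nontrivial U] (hu : ∀ g, e ((u g : Dˣ) : D) = ι (lam g)) {f : D} {s : Finset Γ}
    (h : HasSupp ι e u f s) : ∃ a : Γ → D, Supp.CP u (NF.Kab Γ) f s a := by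
  obtain ⟨-, hinj, a, ha, hf⟩ := h
  refine ⟨a, fun g hg => mem_K hu (ha g hg).2, fun g hg => (ha g hg).1, ?_, hf⟩
  intro g hg h hh hne hmem
  exact hne (hinj hg hh (notMem_iff.1 hmem))

theorem CP_supp [Nontrivial U] (hu : ∀ g, e ((u g : Dˣ) : D) = ι (lam g)) {f : D} {s : Finset Γ}
    (hs : s.Nonempty) {a : Γ → D} (h : Supp.CP u (NF.Kab Γ) f s a) : HasSupp ι e u f s := by
  refine ⟨hs, ?_, a, fun g hg => ⟨h.ne g hg, K_mem hu (h.mem g hg)⟩, h.eq⟩
  intro g hg k hk he
  by_contra hne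
  exact h.dist g hg k hk hne (notMem_iff.2 he)

theorem contr_iff {C : V7N.FreeRes Γ} {s : ∀ n, Matrix (Fin (C.r n)) (Fin (C.r (n + 1))) D} :
    IsContraction u C s ↔ Tors.Contr (Main1.dD u C) s :=
  ⟨fun h => ⟨h.zero, h.succ⟩, fun h => ⟨h.zero, h.succ⟩⟩

theorem torsion_eq {C : V7N.FreeRes Γ} {M : ℕ}
    {s : ∀ n, Matrix (Fin (C.r n)) (Fin (C.r (n + 1))) D} :
    torsionMatrix u C s M = Tors.Tm M 1 0 (Main1.dD u C) s := rfl

theorem elem_eq (n : ℕ) : elem D n = Det.El D n := rfl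

theorem isTorsion_iff {C : V7N.FreeRes Γ} {M : ℕ} {x : D} :
    IsTorsion u C M x ↔ x ≠ 0 ∧ ∃ s, Tors.Contr (Main1.dD u C) s ∧
      Tors.K1Rep (Tors.Tm M 1 0 (Main1.dD u C) s) x := by
  unfold IsTorsion Tors.K1Rep
  refine and_congr_right fun _ => exists_congr fun s => ?_
  rw [contr_iff, torsion_eq]
  refine and_congr_right fun _ => ?_
  constructor
  · rintro ⟨k, n, e₁, e₂, P, hP, Q, hQ, h⟩
    exact ⟨k, n, e₁, e₂, P, Q, hP, hQ, h⟩
  · rintro ⟨k, n, e₁, e₂, P, Q, hP, hQ, h⟩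
    exact ⟨k, n, e₁, e₂, P, hP, Q, hQ, h⟩

end compare

/-! ### The main result -/

open Pool.Agent.TH19 in
/-- Existence of the division ring `D(Γ)`. -/
theorem exists_DG {Γ U : Type} [Group Γ] [Ring U] (hA : Atiyah Γ) {ι : N Γ →+* U}
    (hι : Pool.Agent.RK.Loc ι) :
    ∃ (D : Type) (_ : DivisionRing D) (e : D →+* U) (u : Γ →* Dˣ), IsDG ι e u := by
  have hU := nontrivial_U hι
  have hA' := Pool.Agent.Helper655.VNLight.atiyah_light hA
  have hι' := Fin19.loc_iot hι
  have hint : ∀ (m n : ℕ) (A : Matrix (Fin m) (Fin n) (MonoidAlgebra ℤ Γ)),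
      ∃ k : ℕ, Pool.Agent.RK.rk (Pool.Agent.Helper655.VN.tau Γ) (A.map VN831.zN) = k := by
    intro m n A
    obtain ⟨k, hk⟩ := Pool.Agent.Helper655.VN.atiyah_rk hA' m n A
    have h0 := (Pool.Agent.RK.RkMul.rk_nonneg
      (Pool.Agent.Helper655.VN.vn_NG (G := Γ)) (A.map VN831.zN)).1
    rw [hk] at h0
    have h1 : 0 ≤ k := by exact_mod_cast h0
    obtain ⟨l, rfl⟩ := Int.eq_ofNat_of_zero_le h1
    exact ⟨l, by rw [hk]; simp⟩
  obtain ⟨D, hD, e, u, -, hu, -⟩ := Pool.Agent.RK.DEx.d_exists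
    (Pool.Agent.Helper655.VN.vn_NG (G := Γ)) hι' VN831.zN hint
  have hu' : ∀ g, e ((u g : Dˣ) : D) = ι (lam g) := by
    intro g
    rw [hu, VN831.zN_of]
    show ι (Pool.Agent.Helper277.Sig.sig Γ (Pool.Agent.Helper655.VN.canL g)) = _
    rw [Pool.Agent.Helper277.Sig.sig_canL]
  -- the division subring generated by the group
  let D₀ := TN970.Dc u (⊤ : Subgroup Γ)
  let v : Γ →* D₀ :=
    { toFun := fun g => ⟨((u g : Dˣ) : D), Subfield.subset_closure ⟨g, Subgroup.mem_top g, rfl⟩⟩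
      map_one' := Subtype.ext (by
        show ((u 1 : Dˣ) : D) = 1
        rw [map_one, Units.val_one])
      map_mul' := fun g h => Subtype.ext (by
        show ((u (g * h) : Dˣ) : D) = ((u g : Dˣ) : D) * ((u h : Dˣ) : D)
        rw [map_mul, Units.val_mul]) }
  refine ⟨D₀, inferInstance, e.comp D₀.subtype, MonoidHom.toHomUnits v, ?_, ?_⟩
  · intro g
    exact hu' g
  · ext y
    rw [← Subgroup.coe_top, mem_divCl hu' ⊤ y]
    constructor
    · rintro ⟨d, rfl⟩
      exact ⟨d, d.2, rfl⟩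
    · rintro ⟨d, hd, rfl⟩
      exact ⟨⟨d, hd⟩, rfl⟩

open Pool.Agent.TH19 in
/-- Let `Γ` be a group of type F (given by the finite free resolution `C`) with vanishing
`L²`-Betti numbers, of cohomological dimension at most two, which satisfies the Atiyah Conjecture
and is not infinite cyclic, and let `U` be the algebra of operators affiliated to `N(Γ)`. Then `U`
contains the division ring `D(Γ)`, the torsion `τ` of `D(Γ) ⊗ C` exists, every nonzero element
of `D(Γ)` is a quotient of elements of the crossed product `D(K) * H`, and there is a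
nonempty finite subset `R` of `Γ` with `-P(τ) = poly R`: whenever `τ` is the class of the quotient
of `f` by `g`, then `P(g) = P(f) + poly R`. -/
theorem result {Γ : Type} [Group Γ] [Group.FG Γ] (hA : Atiyah Γ) (hb : ∀ n, l2Betti Γ n = 0)
    (hcd : CdLeTwo Γ) (hZ : IsEmpty (Γ ≃* Multiplicative ℤ))
    (C : V7N.FreeRes Γ) (M : ℕ) (hM : ∀ n, M ≤ n → C.r n = 0)
    {U : Type} [Ring U] (ι : N Γ →+* U) (hι : Pool.Agent.RK.Loc ι) :
    (∃ (D : Type) (_ : DivisionRing D) (e : D →+* U) (u : Γ →* Dˣ), IsDG ι e u) ∧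
    ∀ (D : Type) [DivisionRing D] (e : D →+* U) (u : Γ →* Dˣ), IsDG ι e u →
      (∃ x, IsTorsion u C M x) ∧
      (∀ x : D, x ≠ 0 → ∃ (f g : D) (s t : Finset Γ), HasSupp ι e u f s ∧ HasSupp ι e u g t ∧
        x = g⁻¹ * f) ∧
      ∃ R : Finset Γ, R.Nonempty ∧ ∀ (x f g : D) (s t : Finset Γ), IsTorsion u C M x →
        HasSupp ι e u f s → HasSupp ι e u g t → (x = f * g⁻¹ ∨ x = g⁻¹ * f) →
          poly t = poly s + poly R := by
  have hU := nontrivial_U hι
  refine ⟨exists_DG hA hι, fun D hD e u h => ?_⟩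
  have hu := Fin19.linnell hι h.unit
  have hgen := gen_of h
  obtain ⟨P, hP⟩ := hcd
  have hC := Cd.small_of_cd C P hP
  have hex := fun n => Fin19.exact_of_betti hι h.unit hgen C n (hb (n + 1))
  -- existence of a contraction
  obtain ⟨s0, hs0⟩ : ∃ s0 : Matrix (Fin (C.r 0)) (Fin (C.r 1)) D, s0 * Main1.dD u C 0 = 1 := by
    have h1 := fun i => Fin19.exact_zero_of_betti hι h.unit hgen C (hb 0)
      (Pi.single i 1 : Fin (C.r 0) → D)
    choose w hw using h1
    refine ⟨fun i => w i, Matrix.ext fun i j => ?_⟩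
    have h2 := congrFun (hw i) j
    refine h2.symm.trans ?_
    rw [Matrix.one_apply, Pi.single_apply]
    simp only [eq_comm]
  obtain ⟨k, hk⟩ := hC
  obtain ⟨Y, hY, -, -⟩ := Main1.exists_contr hex hk s0 hs0
  obtain ⟨x₀, hx₀, hrep₀⟩ := Tors.exists_rep hM Main1.dD_mul hY
  have hneg := Main1.torsion_nonpos hu hgen hZ hM hex ⟨k, hk⟩ hY hx₀ hrep₀
  obtain ⟨R, hR, hRv⟩ := NF.exists_poly hu hgen hx₀ hneg
  refine ⟨⟨x₀, isTorsion_iff.2 ⟨hx₀, Y, hY, hrep₀⟩⟩, ?_, R, hR, ?_⟩
  · intro x hx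
    obtain ⟨f, g, A, B, a, b, hA, hB, hf, hg, hfg⟩ := NF.exists_frac hu hgen hx
    refine ⟨f, g, A, B, CP_supp h.unit hA hf, CP_supp h.unit hB hg, ?_⟩
    have hg0 := hg.ne_zero hu inferInstance hB
    rw [← hfg, ← mul_assoc, inv_mul_cancel₀ hg0, one_mul]
  · intro x f g s t hx hf hg hfg
    rw [isTorsion_iff] at hx
    obtain ⟨hx, Y', hY', hrep⟩ := hx
    obtain ⟨a, ha⟩ := supp_CP h.unit hf
    obtain ⟨b, hb'⟩ := supp_CP h.unit hg
    have hg0 := hb'.ne_zero hu inferInstance hg.1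
    have hval : ∀ φ : Γ →* Multiplicative ℤ, Val.vl u φ x = Val.vl u φ x₀ := by
      intro φ
      have hw : Det.IsW (fun y : D => (Val.vl u φ y).unbotD 0) := by
        intro y z hy hz
        obtain ⟨l, hl⟩ := Val.exists_hasV (θ := φ) hu hgen hy
        obtain ⟨m, hm⟩ := Val.exists_hasV (θ := φ) hu hgen hz
        show (Val.vl u φ (y * z)).unbotD 0 =
          (Val.vl u φ y).unbotD 0 + (Val.vl u φ z).unbotD 0
        rw [Val.vl_eq hu hl, Val.vl_eq hu hm, Val.vl_eq hu (hl.mul hu hm)]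
        rfl
      have h1 := Tors.rep_indep hw hM Main1.dD_mul hY' hY hx hx₀ hrep hrep₀
      obtain ⟨l, hl⟩ := Val.exists_hasV (θ := φ) hu hgen hx
      obtain ⟨m, hm⟩ := Val.exists_hasV (θ := φ) hu hgen hx₀
      rw [Val.vl_eq hu hl, Val.vl_eq hu hm] at h1 ⊢
      exact congrArg _ h1
    refine NF.poly_eq hu hgen hx hR (fun φ => ?_) ha hb' hf.1 hg.1 ?_
    · rw [hval φ, hRv φ]
    · rcases hfg with h1 | h1
      · left
        rw [h1, mul_assoc, inv_mul_cancel₀ hg0, mul_one]
      · right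
        rw [h1, ← mul_assoc, mul_inv_cancel₀ hg0, one_mul]

end Pool.Agent.Results.MP_55fbef_al.TwoDimPolytope
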